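import Pool.Agent.Helper81.MT.Trn
import Pool.Agent.Helper81.MT.Bas
import Pool.Agent.Helper49.MT.Add
import Pool.Agent.Helper17.KL.Can

/-! K-LABELS, basics: labels whose leak at one condition `B` (the present point) is exactly zero at every finite level,
and null at the conditions `A i` (the windows of the types). Joins, diagonals, maxima, universality, base change,
extensions, events. -/

set_option autoImplicit false

namespace Pool.Agent.Helper31.EC

open Finset Filter Topology Pool.Agent.Helper69.RK Pool.Agent.Helper40.EL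

noncomputable section

namespace FSp

variable (F : FSp) (E : F.Ω → Prop)

/-- exact splitting over an event which is known to the condition -/
theorem e_split_eq (A B : Setoid F.Ω) (hB : ∀ ω ω', F.μ ω ≠ 0 → F.μ ω' ≠ 0 → B ω ω' → (E ω ↔ E ω')) :
    F.e A B = F.pb E * (F.rest E).e A B + (1 - F.pb E) * (F.rest (fun ω => ¬ E ω)).e A B := by
  have h1 := (st_E4 st_E1 st_E3).1 F.Ω _ _ F.μ (Quotient.mk A) (Quotient.mk B) E F.nn
    (fun ω ω' h h' hq => propext (hB ω ω' h h' (Quotient.exact hq)))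
  rw [F.CH_res, F.CH_res] at h1
  have h2 : F.pb (fun ω => ¬ E ω) = 1 - F.pb E := by
    have := F.pb_add_compl E
    linarith
  rw [h2] at h1
  exact h1

theorem h_split_eq (x y : FL F) (hE : fc (Setoid.ker E) ≤ y) :
    h x y = F.pb E * h (F.rmap E x) (F.rmap E y) +
      (1 - F.pb E) * h (F.rmap (fun ω => ¬ E ω) x) (F.rmap (fun ω => ¬ E ω) y) := by
  have e0 : y ⊔ fc (Setoid.ker E) = y := sup_eq_left.mpr hE
  induction x using fc_ind with | _ A
  induction y using fc_ind with | _ B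
  rw [← e0, ← fc_inf]
  have e1 : h (F.rmap E (fc A)) (F.rmap E (fc (B ⊓ Setoid.ker E))) =
      (F.rest E).e A ((B ⊓ Setoid.ker E) ⊓ F.Z) := h_fc (F := F.rest E) A (B ⊓ Setoid.ker E)
  have e2 : h (F.rmap (fun ω => ¬ E ω) (fc A)) (F.rmap (fun ω => ¬ E ω) (fc (B ⊓ Setoid.ker E))) =
      (F.rest (fun ω => ¬ E ω)).e A ((B ⊓ Setoid.ker E) ⊓ F.Z) :=
    h_fc (F := F.rest (fun ω => ¬ E ω)) A (B ⊓ Setoid.ker E)
  rw [e1, e2, h_fc]
  apply F.e_split_eq E
  intro ω ω' _ _ hq
  have h3 : E ω = E ω' := hq.1.2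
  rw [h3]

/-- conditional entropies on an almost impossible event are the old ones -/
theorem rmap_h_of_pb_zero (h0 : F.pb E = 0) (x y : FL F) : h (F.rmap E x) (F.rmap E y) = h x y := by
  induction x using fc_ind with | _ A
  induction y using fc_ind with | _ B
  have e1 : h (F.rmap E (fc A)) (F.rmap E (fc B)) = (F.rest E).e A (B ⊓ F.Z) := h_fc (F := F.rest E) A B
  rw [e1, h_fc]
  show CH (F.restμ E) (Quotient.mk A) (Quotient.mk (B ⊓ F.Z)) = _
  rw [F.restμ_eq' E h0]
  rfl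

theorem rmap_ker (h0 : F.pb E ≠ 0) : F.rmap E (fc (Setoid.ker E)) = ⊥ := by
  apply le_antisymm _ bot_le
  rw [F.rmap_fc]
  apply fc_le (F := F.rest E) (B := ⊤)
  intro ω ω' h1 h2 _ _
  have a1 := (F.rest_supp E ω h1).2 h0
  have a2 := (F.rest_supp E ω' h2).2 h0
  show E ω = E ω'
  exact propext ⟨fun _ => a2, fun _ => a1⟩

/-- CONDITIONAL INDEPENDENCE IS EXACT ON EVENTS which are functions of one of the two variables and the condition -/
theorem I_rest_zero (x y z : FL F) (hE : fc (Setoid.ker E) ≤ y ⊔ z) (h0 : I x y z = 0) :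
    I (F.rmap E x) (F.rmap E y) (F.rmap E z) = 0 := by
  by_cases hp : F.pb E = 0
  · rw [I_eq, ← F.rmap_sup, F.rmap_h_of_pb_zero E hp, F.rmap_h_of_pb_zero E hp, ← I_eq, h0]
  · set ε : FL F := fc (Setoid.ker E) with hε
    have h1 : I x y (ε ⊔ z) = 0 := by
      have a1 : I x (ε ⊔ y) z = I x ε z + I x y (ε ⊔ z) := I_chain_right _ _ _ _
      have a2 : I x (y ⊔ ε) z = I x y z + I x ε (y ⊔ z) := I_chain_right _ _ _ _
      have a3 : I x ε (y ⊔ z) = 0 := by
        have b1 := I_le_h_right x ε (y ⊔ z)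
        have b2 : h ε (y ⊔ z) = 0 := h_zero hE
        have b3 := I_nonneg x ε (y ⊔ z)
        linarith
      rw [sup_comm] at a2
      rw [a2, h0, a3] at a1
      have b1 := I_nonneg x ε z
      have b2 := I_nonneg x y (ε ⊔ z)
      linarith
    have h2 : I x y (ε ⊔ z) = F.pb E * I (F.rmap E x) (F.rmap E y) (F.rmap E (ε ⊔ z)) +
        (1 - F.pb E) * I (F.rmap (fun ω => ¬ E ω) x) (F.rmap (fun ω => ¬ E ω) y) (F.rmap (fun ω => ¬ E ω) (ε ⊔ z)) := by
      have a1 := F.h_split_eq E x (ε ⊔ z) le_sup_left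
      have a2 := F.h_split_eq E x (y ⊔ (ε ⊔ z)) (le_sup_left.trans le_sup_right)
      rw [I_eq, a1, a2, I_eq, I_eq, ← F.rmap_sup, ← F.rmap_sup]
      ring
    have h3 : F.rmap E (ε ⊔ z) = F.rmap E z := by
      rw [F.rmap_sup, F.rmap_ker E hp, bot_sup_eq]
    rw [h3, h1] at h2
    have p0 : 0 < F.pb E := lt_of_le_of_ne (F.pb_nonneg E) (Ne.symm hp)
    have h4 : 0 ≤ (1 - F.pb E) * I (F.rmap (fun ω => ¬ E ω) x) (F.rmap (fun ω => ¬ E ω) y)
        (F.rmap (fun ω => ¬ E ω) (ε ⊔ z)) := mul_nonneg (sub_nonneg.mpr (F.pb_le_one E)) (I_nonneg _ _ _)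
    have h5 := I_nonneg (F.rmap E x) (F.rmap E y) (F.rmap E z)
    have h6 := mul_nonneg p0.le h5
    have h7 : F.pb E * I (F.rmap E x) (F.rmap E y) (F.rmap E z) = 0 := by linarith
    exact (mul_eq_zero.mp h7).resolve_left hp

end FSp

end

end Pool.Agent.Helper31.EC

namespace Pool.Agent.Helper40.EL

open Finset Filter Topology Pool.Agent.Helper69.RK Pool.Agent.Helper31.EC Pool.Agent.Helper52.KP

noncomputable section

/-! ### finite labels with leak exactly zero -/

namespace FLab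

variable {F : FSp}

theorem leak_zero_mono {l : FLab F} {x y : FL F} (h : x ≤ y) (h0 : l.leak x = 0) : l.leak y = 0 :=
  le_antisymm ((l.leak_anti h).trans h0.le) (l.leak_nonneg _)

theorem join_leak_zero {l l' : FLab F} {x : FL F} (h : l.leak x = 0) (h' : l'.leak x = 0) : (l.join l').leak x = 0 :=
  le_antisymm ((l.join_leak l' x).trans (by rw [h, h', add_zero])) (FLab.leak_nonneg _ _)

theorem comp_leak_zero {l : FLab F} {c : ℝ} {hc : 0 < c} {l2 : FLab (l.ovr c hc)} {x : FL F} (h : l.leak x = 0)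
    (h' : l2.leak (l.up c hc x) = 0) : (l.comp c hc l2).leak x = 0 :=
  le_antisymm ((l.comp_leak_le c hc l2 x).trans (by rw [h, h', add_zero])) (FLab.leak_nonneg _ _)

theorem down_leak_zero {T : FSp} (p : FPj T F) (hn : T.n = F.n) {l : FLab T} {x : FL F} (h : l.leak (p.map x) = 0) :
    (down p hn l).leak x = 0 := le_antisymm ((down_leak p hn l x).trans h.le) (FLab.leak_nonneg _ _)

theorem up'_leak_zero {T : FSp} (p : FPj T F) (hn : T.n = F.n) {l : FLab F} {x : FL F} (h : l.leak x = 0) :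
    (l.up' p hn).leak (p.map x) = 0 := le_antisymm ((up'_leak l p hn x).trans h.le) (FLab.leak_nonneg _ _)

/-- events of the space -/
theorem rst_leak_zero {l : FLab F} (E : F.Ω → Prop) {x : FL F} (h : l.leak x = 0) :
    (l.rst E).leak (F.rmap E x) = 0 := by
  rw [rst_leak]
  apply FSp.I_rest_zero _ _ _ _ _ _ h
  refine le_trans ?_ le_sup_left
  exact fc_mono (fun ω ω' e => congrArg E e)

theorem info_le_of_leak_zero {l : FLab F} {x : FL F} (h : l.leak x = 0) : l.info ≤ H x := by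
  have := l.info_le x
  rw [h, add_zero] at this
  exact this

end FLab

namespace Lab

variable {S T : Sp} {ι ι' : Type}

/-! ### the clause -/

/-- K-CLAUSE: the leak at `B` is exactly zero -/
def KZ (l : Lab S) (B : Part S) : Prop := ∀ᶠ k in UF, (l k).leak (B k) = 0

variable {l l' : Lab S} {B B' : Part S} {A : ι → Part S}

theorem KZ.nul (h : l.KZ B) : Nul S (fun k => (l k).leak (B k)) := by
  refine (Nul_zero S).of_le (Eventually.of_forall fun k => FLab.leak_nonneg _ _) ?_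
  filter_upwards [h] with k hk using hk.le

theorem KZ.mono (h : l.KZ B) (hB : ∀ᶠ k in UF, B k ≤ B' k) : l.KZ B' := by
  filter_upwards [h, hB] with k h1 h2 using FLab.leak_zero_mono h2 h1

theorem KZ.join (h : l.KZ B) (h' : l'.KZ B) : (l.join l').KZ B := by
  filter_upwards [h, h'] with k h1 h2 using FLab.join_leak_zero h1 h2

theorem KZ_triv (B : Part S) : KZ (fun k => FLab.triv (S.F k)) B := Eventually.of_forall fun _ => FLab.triv_leak _

theorem KZ_rs (l : Lab S) (B : Part S) : (l.rs B).KZ B := Eventually.of_forall fun _ => FLab.rs_leak _ _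

theorem KZ.comp {c : ℝ} {hc : 0 < c} (h : l.KZ B) {l2 : Lab (l.ovr c hc)} (h2 : l2.KZ (l.up c hc B)) :
    (l.comp c hc l2).KZ B := by
  filter_upwards [h, h2] with k a b using FLab.comp_leak_zero a b

theorem KZ.down (p : Pj T S) {l : Lab T} (h : l.KZ (B.pull p)) : (l.down p).KZ B := by
  filter_upwards [h] with k hk using FLab.down_leak_zero (p.fp k) (p.hn k) hk

theorem KZ.up' (p : Pj T S) (h : l.KZ B) : (l.up' p).KZ (B.pull p) := by
  filter_upwards [h] with k hk using FLab.up'_leak_zero (p.fp k) (p.hn k) hk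

theorem KZ.rst (h : l.KZ B) (E : ∀ k, (S.F k).Ω → Prop) : (l.rst E).KZ (B.rest E) := by
  filter_upwards [h] with k hk using FLab.rst_leak_zero (E k) hk

/-- a literal partition: the clause is an inequality -/
theorem KZ_ofZ {Z : ∀ k, Setoid (S.F k).Ω} : (Lab.ofZ Z).KZ B ↔ ∀ᶠ k in UF, fc (Z k) ≤ B k := by
  unfold KZ
  have e : ∀ k, ((Lab.ofZ Z) k).leak (B k) = 0 ↔ fc (Z k) ≤ B k := by
    intro k
    rw [Lab.ofZ_leak]
    exact h_eq_zero_iff
  simp only [e]

/-! ### K-labels -/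

variable (l B A) in
/-- K-LABELS: the leak at `B` is exactly zero, the leaks at the conditions `A i` are null -/
def DMK : Prop := l.KZ B ∧ l.DMf A

variable (B A) in
/-- the conditions of a K-label as one family -/
def kfm : Option ι → Part S
  | none => B
  | some i => A i

theorem DMK.dmf (h : l.DMK B A) : l.DMf (kfm B A) := by
  intro i
  rcases i with _ | i
  · exact h.1.nul
  · exact h.2 i

variable (B A) in
/-- one of the conditions has bounded entropy -/
def Bdk : Prop := ∃ i, (kfm B A i).Bd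

theorem Bdk.of_pt (h : B.Bd) : Bdk B A := ⟨none, h⟩

theorem Bdk.of_cond {i : ι} (h : (A i).Bd) : Bdk B A := ⟨some i, h⟩

theorem DMK.ub (h : l.DMK B A) (hA : Bdk B A) : UB (fun k => (l k).info / (S.F k).n) := by
  obtain ⟨i, hi⟩ := hA
  exact h.dmf.ub hi

theorem DMK.info_nonneg (h : l.DMK B A) (hA : Bdk B A) : 0 ≤ l.info := info_nonneg' (h.ub hA)

theorem DMK.join (h : l.DMK B A) (h' : l'.DMK B A) : (l.join l').DMK B A := ⟨h.1.join h'.1, h.2.join h'.2⟩

theorem DMK_triv (B : Part S) (A : ι → Part S) : DMK (fun k => FLab.triv (S.F k)) B A := ⟨KZ_triv B, DMf_triv A⟩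

/-- a finer point (literally), more and coarser windows -/
theorem DMK.mono {A' : ι' → Part S} (h : l.DMK B A) (hB : ∀ᶠ k in UF, B k ≤ B' k) (hA : ∀ i, ∃ j, PLe (A j) (A' i)) :
    l.DMK B' A' := ⟨h.1.mono hB, h.2.mono hA⟩

theorem DMK_ofZ {Z : ∀ k, Setoid (S.F k).Ω} :
    (Lab.ofZ Z).DMK B A ↔ (∀ᶠ k in UF, fc (Z k) ≤ B k) ∧ ∀ i, PLe (fun k => fc (Z k)) (A i) :=
  and_congr KZ_ofZ (Lab.ofZ_DMf Z)

variable (l B A) in
/-- maximal K-labels -/
def MaxK : Prop := l.DMK B A ∧ ∀ l' : Lab S, l'.DMK B A → l'.info ≤ l.info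

theorem KZ_iff_ev : l.KZ B ↔ (LC.kz B).ev l := Iff.rfl

/-- maximal K-labels are the maximal labels of the class `LC.kz B` -/
theorem MaxK_iff : l.MaxK B A ↔ IsMaxK (LC.kz B) l A :=
  ⟨fun h => ⟨h.1.2, h.1.1, fun l' h1 h2 => h.2 l' ⟨h2, h1⟩⟩, fun h => ⟨⟨h.2.1, h.1⟩, fun l' h1 => h.2.2 l' h1.2 h1.1⟩⟩

/-- the information of a K-label is at most the entropy of the point -/
theorem DMK.info_le (h : l.DMK B A) (hB : B.Bd) : l.info ≤ ul (fun k => H (B k) / (S.F k).n) := by
  have h1 : l.DM B B := ⟨h.1.nul, h.1.nul⟩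
  exact h1.info_le hB

/-- the information beyond a K-label of maximal information is null -/
theorem MaxK.univ (h : l.MaxK B A) (h' : l'.DMK B A) (hA : Bdk B A) :
    Nul S (fun k => I (((l k).am (l' k)).p2.map (l' k).v) (((l k).am (l' k)).p1.map (l k).p.top)
      (((l k).am (l' k)).p1.map (l k).v)) :=
  univ_of_info (h.2 _ (h.1.join h')) ((h.1.join h').ub hA) (h.1.ub hA)

/-- APPROXIMATE K-labels converge to K-labels (countably many windows) -/
theorem approxK [Countable ι] (hA : Bdk B A) (l : ℕ → Lab S) (hl : ∀ j, (l j).KZ B) (e : ℕ → ℝ)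
    (he : Tendsto e atTop (𝓝 0)) (v : ℝ)
    (h1 : ∀ i, ∀ᶠ j in atTop, ∀ᶠ k in UF, (l j k).leak (A i k) / (S.F k).n ≤ e j)
    (h3 : ∀ j, ∀ᶠ k in UF, v - e j ≤ (l j k).info / (S.F k).n) : ∃ y : Lab S, y.DMK B A ∧ v ≤ y.info := by
  classical
  obtain ⟨c, hc⟩ := exists_injective_nat ι
  have hN : ∀ i, ∃ N, ∀ j, N ≤ j → ∀ᶠ k in UF, (l j k).leak (A i k) / (S.F k).n ≤ e j := by
    intro i
    exact eventually_atTop.mp (h1 i)
  choose N hN using hN
  have hfin : ∀ j : ℕ, {i : ι | c i ≤ j ∧ N i ≤ j}.Finite := by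
    intro j
    apply Set.Finite.of_finite_image (f := c) _ hc.injOn
    apply (Set.finite_Iic j).subset
    rintro x ⟨i, hi, rfl⟩
    exact hi.1
  have hG : ∀ j, ∀ᶠ k in UF, (l j k).leak (B k) = 0 ∧
      (∀ i ∈ {i : ι | c i ≤ j ∧ N i ≤ j}, (l j k).leak (A i k) / (S.F k).n ≤ e j) ∧
      v - e j ≤ (l j k).info / (S.F k).n := by
    intro j
    apply (hl j).and
    apply Filter.Eventually.and _ (h3 j)
    rw [Filter.eventually_all_finite (hfin j)]
    intro i hi
    exact hN i j hi.2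
  obtain ⟨y, j, hj, hy, hG'⟩ := dia' (X := fun k => FLab (S.F k)) l (fun j k x => x.leak (B k) = 0 ∧
      (∀ i ∈ {i : ι | c i ≤ j ∧ N i ≤ j}, x.leak (A i k) / (S.F k).n ≤ e j) ∧
      v - e j ≤ x.info / (S.F k).n) hG
  have h0 : Tendsto (fun k => e (j k)) UF (𝓝 0) := he.comp hj
  have hDM : Lab.DMK y B A := by
    constructor
    · filter_upwards [hG'] with k hk using hk.1
    · intro i
      refine tendsto_of_tendsto_of_tendsto_of_le_of_le' tendsto_const_nhds h0 ?_ ?_
      · exact Eventually.of_forall fun k => div_nonneg ((y k).leak_nonneg _) (S.F k).pos.le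
      · filter_upwards [hG', hj.eventually (eventually_ge_atTop (c i)), hj.eventually (eventually_ge_atTop (N i))]
          with k hk h5 h6 using hk.2.1 i ⟨h5, h6⟩
  refine ⟨y, hDM, ?_⟩
  have h4 : Tendsto (fun k => v - e (j k)) UF (𝓝 v) := by
    have := h0.const_sub v
    rwa [sub_zero] at this
  exact le_of_tendsto_of_tendsto h4 (ul_tendsto (hDM.ub hA)) (by filter_upwards [hG'] with k hk using hk.2.2)

/-- MAXIMAL K-labels exist -/
theorem exists_mxK [Countable ι] (B : Part S) (A : ι → Part S) (hA : Bdk B A) : ∃ l : Lab S, l.MaxK B A := by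
  set I0 : Set ℝ := {x | ∃ l : Lab S, l.DMK B A ∧ x = l.info} with hI0
  have hbd : BddAbove I0 := by
    obtain ⟨i, hi⟩ := hA
    refine ⟨ul (fun k => H (kfm B A i k) / (S.F k).n), ?_⟩
    rintro x ⟨l, hl, rfl⟩
    exact hl.dmf.info_le hi
  have hne : I0.Nonempty := ⟨_, _, DMK_triv B A, rfl⟩
  have h1 : ∀ j : ℕ, ∃ l : Lab S, l.DMK B A ∧ sSup I0 - 1 / ((j : ℝ) + 1) < l.info := by
    intro j
    have h2 : sSup I0 - 1 / ((j : ℝ) + 1) < sSup I0 := by
      have : (0 : ℝ) < 1 / ((j : ℝ) + 1) := by positivity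
      linarith
    obtain ⟨x, ⟨l, hl, rfl⟩, hx⟩ := exists_lt_of_lt_csSup hne h2
    exact ⟨l, hl, hx⟩
  choose l hl hi using h1
  obtain ⟨y, hy, hyi⟩ := approxK hA l (fun j => (hl j).1) (fun j => 1 / ((j : ℝ) + 1))
    tendsto_one_div_add_atTop_nhds_zero_nat (sSup I0) (by
      intro i
      refine Eventually.of_forall fun j => ?_
      have h5 : (0 : ℝ) < 1 / ((j : ℝ) + 1) := by positivity
      filter_upwards [((hl j).2 i).eventually (gt_mem_nhds h5)] with k hk using hk.le) (by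
      intro j
      filter_upwards [eventually_gt_of_lt_ul ((hl j).ub hA) (hi j)] with k hk using hk.le)
  refine ⟨y, hy, ?_⟩
  intro l' hl'
  exact (le_csSup hbd ⟨l', hl', rfl⟩).trans hyi

theorem MaxK.info_eq (h : l.MaxK B A) (h' : l'.MaxK B A) : l.info = l'.info :=
  le_antisymm (h'.2 _ h.1) (h.2 _ h'.1)

theorem MaxK.congr {A' : ι' → Part S} (hl : l.MaxK B A) (hB : ∀ᶠ k in UF, B k = B' k)
    (h : ∀ i, ∃ j, PLe (A j) (A' i)) (h' : ∀ i, ∃ j, PLe (A' j) (A i)) : l.MaxK B' A' :=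
  ⟨hl.1.mono (hB.mono fun _ e => e.le) h, fun _ hl' => hl.2 _ (hl'.mono (hB.mono fun _ e => e.ge) h')⟩

/-! ### spaces over K-labels -/

variable {c : ℝ} {hc : 0 < c}

theorem DMK.comp (h : l.DMK B A) {l2 : Lab (l.ovr c hc)} (h2 : l2.DMK (l.up c hc B) (fun i => l.up c hc (A i))) :
    (l.comp c hc l2).DMK B A := ⟨h.1.comp h2.1, h.2.comp h2.2⟩

/-- TRIVIALITY over a maximal K-label -/
theorem MaxK.triv (h : l.MaxK B A) (hA : Bdk B A) (l2 : Lab (l.ovr c hc))
    (h2 : l2.DMK (l.up c hc B) (fun i => l.up c hc (A i))) : Nul S (fun k => (l2 k).info) := by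
  obtain ⟨_, t3⟩ := info_comp (h.1.ub hA) ((h.1.comp h2).ub hA) h2.1.nul
  have h1 := h.2 _ (h.1.comp h2)
  have h0 : ∀ k, 0 ≤ (l2 k).info / (S.F k).n := fun k => div_nonneg (FLab.info_nonneg _) (S.F k).pos.le
  have h5 : 0 ≤ (l.comp c hc l2).info - l.info := ge_of_tendsto t3 (Eventually.of_forall h0)
  have h6 : (l.comp c hc l2).info - l.info = 0 := le_antisymm (by linarith) h5
  rw [h6] at t3
  exact t3

/-- maximality in the space over a K-label -/
theorem MaxK.ovr {l2 : Lab (l.ovr c hc)} (h : (l.comp c hc l2).MaxK B A) (hl : l.DMK B A)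
    (h2 : l2.DMK (l.up c hc B) (fun i => l.up c hc (A i))) (hA : Bdk B A) :
    l2.MaxK (l.up c hc B) (fun i => l.up c hc (A i)) := by
  refine ⟨h2, ?_⟩
  intro l3 h3
  have h4 := h.2 _ (hl.comp h3)
  rw [(info_comp (hl.ub hA) ((hl.comp h2).ub hA) h2.1.nul).1, (info_comp (hl.ub hA) ((hl.comp h3).ub hA) h3.1.nul).1]
  apply div_le_div_of_nonneg_right _ hc.le
  linarith

/-- a maximal K-label over a K-label gives a maximal K-label -/
theorem MaxK.comp {l2 : Lab (l.ovr c hc)} (hl : l.DMK B A) (h2 : l2.MaxK (l.up c hc B) (fun i => l.up c hc (A i)))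
    (hA : Bdk B A) (h : ∀ y : Lab S, y.DMK B A → ∃ l3 : Lab (l.ovr c hc),
      l3.DMK (l.up c hc B) (fun i => l.up c hc (A i)) ∧ y.info ≤ (l.comp c hc l3).info) :
    (l.comp c hc l2).MaxK B A := by
  refine ⟨hl.comp h2.1, fun y hy => ?_⟩
  obtain ⟨l3, h3, h4⟩ := h y hy
  have h5 := h2.2 l3 h3
  rw [(info_comp (hl.ub hA) ((hl.comp h2.1).ub hA) h2.1.1.nul).1,
    (info_comp (hl.ub hA) ((hl.comp h3).ub hA) h3.1.nul).1] at h5
  have h6 : (l.comp c hc l3).info - l.info ≤ (l.comp c hc l2).info - l.info := by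
    by_contra hcon
    push Not at hcon
    have := div_lt_div_of_pos_right hcon hc
    linarith
  linarith

/-! ### extensions -/

theorem DMK.down (p : Pj T S) {l : Lab T} (h : l.DMK (B.pull p) (fun i => (A i).pull p)) : (l.down p).DMK B A :=
  ⟨h.1.down p, h.2.down p⟩

theorem DMK.up' (p : Pj T S) (h : l.DMK B A) : (l.up' p).DMK (B.pull p) (fun i => (A i).pull p) :=
  ⟨h.1.up' p, h.2.up' p⟩

theorem kfm_pull (p : Pj T S) (i : Option ι) : (kfm B A i).pull p = kfm (B.pull p) (fun i => (A i).pull p) i := by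
  rcases i with _ | i <;> rfl

theorem Bdk.pull (p : Pj T S) (hA : Bdk B A) : Bdk (B.pull p) (fun i => (A i).pull p) := by
  obtain ⟨i, hi⟩ := hA
  refine ⟨i, ?_⟩
  rw [← kfm_pull]
  exact hi.pull p

theorem DMK.info_down (p : Pj T S) {l : Lab T} (h : l.DMK (B.pull p) (fun i => (A i).pull p)) (hA : Bdk B A) :
    (l.down p).info = l.info := by
  obtain ⟨i, hi⟩ := hA
  have h1 := h.dmf i
  rw [← kfm_pull] at h1
  exact DM.info_down p ⟨h1, h1⟩ hi

theorem DMK.info_up' (p : Pj T S) (h : l.DMK B A) (hA : Bdk B A) : l.info ≤ (l.up' p).info := by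
  obtain ⟨i, hi⟩ := hA
  exact DMf.info_up' p h.dmf hi

/-- maximal K-labels stay maximal in extensions -/
theorem MaxK.up' (p : Pj T S) (h : l.MaxK B A) (hA : Bdk B A) :
    (l.up' p).MaxK (B.pull p) (fun i => (A i).pull p) := by
  refine ⟨h.1.up' p, fun l' h' => ?_⟩
  rw [← DMK.info_down p h' hA]
  exact (h.2 _ (h'.down p)).trans (DMK.info_up' p h.1 hA)

theorem MaxK.down (p : Pj T S) {l' : Lab T} (h : l'.MaxK (B.pull p) (fun i => (A i).pull p)) (hA : Bdk B A) :
    (l'.down p).MaxK B A := by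
  refine ⟨h.1.down p, fun l h' => ?_⟩
  rw [DMK.info_down p h.1 hA]
  exact (DMK.info_up' p h' hA).trans (h.2 _ (h'.up' p))

theorem MaxK.info_pull (p : Pj T S) {l' : Lab T} (h : l.MaxK B A)
    (h' : l'.MaxK (B.pull p) (fun i => (A i).pull p)) (hA : Bdk B A) : l'.info = l.info := by
  apply le_antisymm
  · rw [← DMK.info_down p h'.1 hA]
    exact h.2 _ (h'.1.down p)
  · exact (DMK.info_up' p h.1 hA).trans (h'.2 _ (h.1.up' p))

/-! ### events -/

theorem DMK.rst (h : l.DMK B A) (E : ∀ k, (S.F k).Ω → Prop) (hE : 0 < ul (S.pr E)) :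
    (l.rst E).DMK (B.rest E) (fun i => (A i).rest E) := ⟨h.1.rst E, h.2.rst E hE⟩

/-- the restriction of a label to an event of an extension of the space -/
def rsi (p : Pj T S) (E : ∀ k, (T.F k).Ω → Prop) (l : Lab S) : Lab (Sp.im p E) := ((l.up' p).rst E).down (Sp.imq p E)

theorem KZ.im (p : Pj T S) (h : l.KZ B) (E : ∀ k, (T.F k).Ω → Prop) : (rsi p E l).KZ (B.im p E) := by
  apply KZ.down (Sp.imq p E)
  rw [Part.im_pull]
  exact (h.up' p).rst E

theorem DMf.imx (p : Pj T S) (h : l.DMf A) (E : ∀ k, (T.F k).Ω → Prop) (hE : 0 < ul (T.pr E)) :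
    (rsi p E l).DMf (fun i => (A i).im p E) := by
  apply DMf.down (Sp.imq p E)
  have e : (fun i => Part.pull (Sp.imq p E) ((A i).im p E)) = fun i => ((A i).pull p).rest E :=
    funext fun i => Part.im_pull p E (A i)
  rw [e]
  exact (h.up' p).rst E hE

/-- K-LABELS ARE K-LABELS ON EVERY EVENT of positive probability of every extension -/
theorem DMK.im (p : Pj T S) (h : l.DMK B A) (E : ∀ k, (T.F k).Ω → Prop) (hE : 0 < ul (T.pr E)) :
    (rsi p E l).DMK (B.im p E) (fun i => (A i).im p E) := ⟨h.1.im p E, h.2.imx p E hE⟩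

theorem kfm_im (p : Pj T S) (E : ∀ k, (T.F k).Ω → Prop) (i : Option ι) :
    (kfm B A i).im p E = kfm (B.im p E) (fun i => (A i).im p E) i := by
  rcases i with _ | i <;> rfl

theorem Bdk.im (p : Pj T S) {E : ∀ k, (T.F k).Ω → Prop} (hE : 0 < ul (T.pr E)) (hA : Bdk B A) :
    Bdk (B.im p E) (fun i => (A i).im p E) := by
  obtain ⟨i, hi⟩ := hA
  refine ⟨i, ?_⟩
  rw [← kfm_im]
  exact hi.im p hE

theorem pull_im_fun (p : Pj T S) (E : ∀ k, (T.F k).Ω → Prop) (A : ι → Part S) :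
    (fun i => Part.pull (Sp.imq p E) ((A i).im p E)) = fun i => ((A i).pull p).rest E :=
  funext fun i => Part.im_pull p E (A i)

theorem DMK.rst_up (p : Pj T S) (h : l.DMK B A) (E : ∀ k, (T.F k).Ω → Prop) (hE : 0 < ul (T.pr E)) :
    ((l.up' p).rst E).DMK (Part.pull (Sp.imq p E) (B.im p E)) (fun i => Part.pull (Sp.imq p E) ((A i).im p E)) := by
  rw [pull_im_fun, Part.im_pull]
  exact (h.up' p).rst E hE

theorem DMK.rsi_info (p : Pj T S) (h : l.DMK B A) (hA : Bdk B A) (E : ∀ k, (T.F k).Ω → Prop)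
    (hE : 0 < ul (T.pr E)) : (rsi p E l).info = ((l.up' p).rst E).info :=
  DMK.info_down (Sp.imq p E) (h.rst_up p E hE) (hA.im p hE)

/-- the information of a restricted K-label: superadditivity of the maximal informations -/
theorem DMK.info_split (p : Pj T S) (h : l.DMK B A) (hA : Bdk B A) (E : ∀ k, (T.F k).Ω → Prop) (hE : 0 < ul (T.pr E))
    (hE' : 0 < ul (T.pr fun k ω => ¬ E k ω)) :
    l.info ≤ ul (T.pr E) * (rsi p E l).info + (1 - ul (T.pr E)) * (rsi p (fun k ω => ¬ E k ω) l).info := by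
  rw [h.rsi_info p hA E hE, h.rsi_info p hA _ hE']
  have u := (h.up' p).ub (hA.pull p)
  have u₁ := (h.rst_up p E hE).ub ((hA.im p hE).pull (Sp.imq p E))
  have u₂ := (h.rst_up p _ hE').ub ((hA.im p hE').pull (Sp.imq p _))
  refine (DMK.info_up' p h hA).trans ?_
  generalize hy : l.up' p = y at u u₁ u₂
  have t : Tendsto (fun k => T.pr E k * (((y.rst E) k).info / (T.F k).n) + (1 - T.pr E k) *
      (((y.rst fun k ω => ¬ E k ω) k).info / (T.F k).n) + 1 / (T.F k).n) UF
      (𝓝 (ul (T.pr E) * (y.rst E).info + (1 - ul (T.pr E)) * (y.rst fun k ω => ¬ E k ω).info + 0)) :=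
    (((ul_tendsto (Sp.UB_pr E)).mul (ul_tendsto u₁)).add
      (((ul_tendsto (Sp.UB_pr E)).const_sub 1).mul (ul_tendsto u₂))).add (T.div_n_tendsto 1)
  rw [add_zero] at t
  refine le_of_tendsto_of_tendsto (ul_tendsto u) t (Eventually.of_forall fun k => ?_)
  have h1 := (y k).rst_split (E k)
  have h2 := div_le_div_of_nonneg_right h1 (T.F k).pos.le
  exact h2.trans (le_of_eq (dv2 _ _ _ _))

/-- the maximal information of K-labels is superadditive over events: it may only increase on average -/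
theorem MaxK.split (p : Pj T S) (h : l.MaxK B A) (hA : Bdk B A) (E : ∀ k, (T.F k).Ω → Prop)
    (hE : 0 < ul (T.pr E)) (hE' : 0 < ul (T.pr fun k ω => ¬ E k ω)) {l₁ : Lab (Sp.im p E)}
    {l₂ : Lab (Sp.im p fun k ω => ¬ E k ω)} (h₁ : l₁.MaxK (B.im p E) (fun i => (A i).im p E))
    (h₂ : l₂.MaxK (B.im p fun k ω => ¬ E k ω) (fun i => (A i).im p fun k ω => ¬ E k ω)) :
    l.info ≤ ul (T.pr E) * l₁.info + (1 - ul (T.pr E)) * l₂.info := by
  have h3 := h.1.info_split p hA E hE hE'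
  have m₁ := mul_le_mul_of_nonneg_left (h₁.2 _ (h.1.im p E hE)) hE.le
  have m₂ := mul_le_mul_of_nonneg_left (h₂.2 _ (h.1.im p _ hE')) (sub_nonneg.mpr (Sp.ul_pr_le_one E))
  linarith

/-! ### connectedness for K-labels -/

variable (B A) in
/-- all K-labels are trivial -/
def ConK : Prop := ∀ l : Lab S, l.DMK B A → Nul S (fun k => (l k).info)

theorem ConK.info (h : ConK B A) (hl : l.DMK B A) : l.info = 0 := ul_eq (h l hl)

theorem conK_of_info (hA : Bdk B A) (h : ∀ l : Lab S, l.DMK B A → l.info ≤ 0) : ConK B A := by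
  intro l hl
  have h0 : ∀ᶠ k in UF, 0 ≤ (fun k => (l k).info) k := Eventually.of_forall fun k => (l k).info_nonneg
  exact (Nul_iff_ul h0).mpr ⟨hl.ub hA, h l hl⟩

theorem ConK.mono {A' : ι' → Part S} (h : ConK B A) (hB : ∀ᶠ k in UF, B' k ≤ B k)
    (hA : ∀ i, ∃ j, PLe (A' j) (A i)) : ConK B' A' :=
  fun l hl => h l (DMK.mono (B := B') (B' := B) (A := A') (A' := A) hl hB hA)

theorem MaxK.conK (h : l.MaxK B A) (hA : Bdk B A) : ConK (l.up c hc B) (fun i => l.up c hc (A i)) :=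
  fun l2 h2 => (l.nul_over c hc).mpr (MaxK.triv h hA l2 h2)

/-- ordinary connectedness implies connectedness for K-labels -/
theorem ConK.of_conf (h : Conf (kfm B A)) : ConK B A := fun l hl => h l hl.dmf

theorem ConK.down (p : Pj T S) (h : ConK (B.pull p) (fun i => (A i).pull p)) : ConK B A := by
  intro l hl
  have h1 := (nul_pj p).mp (h _ (hl.up' p))
  apply h1.of_le (Eventually.of_forall fun k => FLab.info_nonneg _)
  exact Eventually.of_forall fun k => FLab.up'_info (l k) (p.fp k) (p.hn k)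

end Lab

end

end Pool.Agent.Helper40.EL
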